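import Pool.Agent.Helper58.SF.StN

/-! Project SF (MP_a45945_gt), module GLU: gluing of homeomorphisms of the cells of a joint subdivision -/

set_option autoImplicit false

namespace Pool.Agent.Helper36.SF

open Set Topology Pool.Agent.Helper13.TR Pool.Agent.Helper58.SF
open Pool.Agent.Helper13.TW (IsArc Spl IsSCC dch Chn Splt GT CSy MP Val LR MCell)

theorem hGLU : StGLU := by
  intro X _ cell hC M hM L hL f hf
  classical
  have hcpt : ∀ N ∈ L, IsCompact N.E ∧ N.J ⊆ N.E := fun N hN =>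
    ⟨(hC.cpt _ _ (hL.val N hN).1).1, (hC.cpt _ _ (hL.val N hN).1).2.1⟩
  have hwd : ∀ N ∈ L, ∀ N' ∈ L, ∀ y, y ∈ N.E → y ∈ N'.E → f N y = f N' y := by
    intro N hN N' hN' y hy hy'
    by_cases h : N = N'
    · rw [h]
    · have h1 := hL.dis N hN N' hN' h ⟨hy, hy'⟩
      rw [(hf N hN).2.2.2 y h1.1, (hf N' hN').2.2.2 y h1.2]
      exact hL.agr N hN N' hN' y h1
  let h : X → ℂ := fun y => if hy : ∃ N, N ∈ L ∧ y ∈ N.E then f (Classical.choose hy) y else 0
  have hh : ∀ N ∈ L, ∀ y ∈ N.E, h y = f N y := by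
    intro N hN y hy
    have hex : ∃ N, N ∈ L ∧ y ∈ N.E := ⟨N, hN, hy⟩
    have h1 : h y = f (Classical.choose hex) y := dif_pos hex
    rw [h1]
    have h2 := Classical.choose_spec hex
    exact hwd _ h2.1 N hN y h2.2 hy
  have hmem : ∀ y ∈ M.E, ∃ N ∈ L, y ∈ N.E := by
    intro y hy
    rw [← hL.un] at hy
    obtain ⟨N, hN, hyN⟩ := mem_iUnion₂.1 hy
    exact ⟨N, hN, hyN⟩
  have hval : ∀ N ∈ L, ∀ y ∈ N.E, f N y ∈ N.J' → y ∈ N.J := by
    intro N hN y hy hyJ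
    rw [← (hL.val N hN).2.2.2.2] at hyJ
    obtain ⟨z, hz, hzy⟩ := hyJ
    rw [← (hf N hN).2.2.2 z hz] at hzy
    have := (hf N hN).2.1 ((hcpt N hN).2 hz) hy hzy
    rw [← this]
    exact hz
  refine ⟨h, ?_, ?_, ?_, ?_, hh⟩
  · -- continuity
    have hfin : Finite ↥L := hL.fin
    have h1 : M.E = ⋃ N : ↥L, (N : MP X ℂ).E := by
      rw [← hL.un]
      exact biUnion_eq_iUnion L fun N _ => N.E
    rw [h1]
    refine (locallyFinite_of_finite fun N : ↥L => (N : MP X ℂ).E).continuousOn_iUnion ?_ ?_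
    · intro N
      exact (hcpt N.1 N.2).1.isClosed
    · intro N
      exact (hf N.1 N.2).1.congr fun y hy => hh N.1 N.2 y hy
  · -- injectivity
    intro y hy y' hy' heq
    obtain ⟨N, hN, hyN⟩ := hmem y hy
    obtain ⟨N', hN', hyN'⟩ := hmem y' hy'
    rw [hh N hN y hyN, hh N' hN' y' hyN'] at heq
    by_cases hNN : N = N'
    · subst hNN
      exact (hf N hN).2.1 hyN hyN' heq
    · have m1 : f N y ∈ N.E' := by
        rw [← (hf N hN).2.2.1]
        exact ⟨y, hyN, rfl⟩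
      have m2 : f N y ∈ N'.E' := by
        rw [heq, ← (hf N' hN').2.2.1]
        exact ⟨y', hyN', rfl⟩
      have m3 := hL.dis' N hN N' hN' hNN ⟨m1, m2⟩
      have j1 := hval N hN y hyN m3.1
      have j2 := hval N' hN' y' hyN' (heq ▸ m3.2)
      rw [(hf N hN).2.2.2 y j1, (hf N' hN').2.2.2 y' j2] at heq
      exact hL.inj N hN N' hN' y j1 y' j2 heq
  · -- image
    ext v
    constructor
    · rintro ⟨y, hy, rfl⟩
      obtain ⟨N, hN, hyN⟩ := hmem y hy
      rw [hh N hN y hyN, ← hL.un']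
      refine mem_iUnion₂.2 ⟨N, hN, ?_⟩
      rw [← (hf N hN).2.2.1]
      exact ⟨y, hyN, rfl⟩
    · intro hv
      rw [← hL.un'] at hv
      obtain ⟨N, hN, hvN⟩ := mem_iUnion₂.1 hv
      rw [← (hf N hN).2.2.1] at hvN
      obtain ⟨y, hy, rfl⟩ := hvN
      refine ⟨y, ?_, hh N hN y hy⟩
      rw [← hL.un]
      exact mem_iUnion₂.2 ⟨N, hN, hy⟩
  · -- boundary values
    intro y hy
    have hyE : y ∈ M.E := (hC.cpt _ _ hM.1).2.1 hy
    obtain ⟨N, hN, hyN⟩ := hmem y hyE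
    have hyJ : y ∈ N.J := hL.bdy N hN ⟨hyN, hy⟩
    rw [hh N hN y hyN, (hf N hN).2.2.2 y hyJ]
    exact hL.agb N hN y ⟨hyJ, hy⟩

end Pool.Agent.Helper36.SF
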