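import Pool.Agent.Helper58.SF.StA

/-! Project SF (MP_a45945_gt), module LSP: local connectedness above a level -/

set_option autoImplicit false

namespace Pool.Agent.Helper36.SF

open Set Topology Pool.Agent.Helper13.TR Pool.Agent.Helper58.SF

/-- the short flow: go down by `v`, but at most to half the level -/
private noncomputable def Fv {P : Type} (r : P → ℝ) (R : ℝ → P → P) (v : ℝ) (y : P) : P :=
  R (max (r y - v) (r y / 2)) y

section flow

variable {P : Type} [TopologicalSpace P] {r : P → ℝ} {R : ℝ → P → P}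

private theorem lev_pos (h : Flow P r R) (v : ℝ) (y : P) : 0 < max (r y - v) (r y / 2) :=
  lt_max_of_lt_right (half_pos (h.pos y))

private theorem Fv_cont (h : Flow P r R) : Continuous fun p : ℝ × P => Fv r R p.1 p.2 := by
  have h1 : Continuous fun p : ℝ × P => ((max (r p.2 - p.1) (r p.2 / 2), p.2) : ℝ × P) := by
    have h2 := h.rc
    fun_prop
  exact h.Rc.comp_continuous h1 fun p => lev_pos h p.1 p.2

private theorem r_Fv (h : Flow P r R) {v : ℝ} (hv : 0 ≤ v) (y : P) :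
    r (Fv r R v y) = max (r y - v) (r y / 2) := by
  unfold Fv
  rw [h.rR _ _ (lev_pos h v y)]
  apply min_eq_left
  have := h.pos y
  exact max_le (by linarith) (by linarith)

private theorem Fv_zero (h : Flow P r R) (y : P) : Fv r R 0 y = y := by
  unfold Fv
  refine h.Rid _ _ ?_
  rw [sub_zero]
  exact le_max_left _ _

private theorem R_Fv (h : Flow P r R) {v t0 : ℝ} (ht0 : 0 < t0) (hv : 0 ≤ v) (y : P)
    (hy : t0 ≤ r (Fv r R v y)) : R t0 (Fv r R v y) = R t0 y := by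
  rw [r_Fv h hv] at hy
  exact h.RR t0 _ y ht0 hy

/-- the short flow does not enter a small compact set from far -/
private theorem stepA [T2Space P] (hB : Box P r R) (C2 N1 : Set P) (hC2 : IsCompact C2)
    (hne : C2.Nonempty) (hN1 : IsOpen N1) (h21 : C2 ⊆ N1) :
    ∃ s₀ : ℝ, 0 < s₀ ∧ ∀ v : ℝ, 0 ≤ v → v ≤ s₀ → ∀ y : P, Fv r R v y ∈ C2 → y ∈ N1 := by
  have hF : Flow P r R := hB.toFlow
  obtain ⟨p0, hp0, hmin⟩ := hC2.exists_isMinOn hne hF.rc.continuousOn
  obtain ⟨p1, hp1, hmax⟩ := hC2.exists_isMaxOn hne hF.rc.continuousOn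
  obtain ⟨t0, ht0⟩ : ∃ t0, t0 = r p0 := ⟨_, rfl⟩
  obtain ⟨t1, ht1⟩ : ∃ t1, t1 = r p1 := ⟨_, rfl⟩
  have ht0p : 0 < t0 := ht0 ▸ hF.pos p0
  have ht1l : t1 < 1 := ht1 ▸ hF.lt p1
  have hle0 : ∀ y ∈ C2, t0 ≤ r y := fun y hy => ht0 ▸ hmin hy
  have hle1 : ∀ y ∈ C2, r y ≤ t1 := fun y hy => ht1 ▸ hmax hy
  have h01 : t0 ≤ t1 := (hle0 p1 hp1).trans (hle1 p1 hp1)
  obtain ⟨t1', ht1'⟩ : ∃ t1', t1' = (t1 + 1) / 2 := ⟨_, rfl⟩
  have h1a : t1 < t1' := by rw [ht1']; linarith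
  have h1b : t1' < 1 := by rw [ht1']; linarith
  have hRc : Continuous (R t0) := by
    have h1 : Continuous fun y : P => ((t0, y) : ℝ × P) := by fun_prop
    exact hF.Rc.comp_continuous h1 fun _ => ht0p
  have hK : IsCompact {y : P | t0 ≤ r y ∧ r y ≤ t1' ∧ R t0 y ∈ R t0 '' C2} := by
    refine hB.cpt t0 t1' _ ht0p (h01.trans h1a.le) h1b (hC2.image hRc) ?_
    rintro _ ⟨y, hy, rfl⟩
    rw [hF.rR _ _ ht0p]
    exact min_eq_left (hle0 y hy)
  have hK1 : IsCompact ({y : P | t0 ≤ r y ∧ r y ≤ t1' ∧ R t0 y ∈ R t0 '' C2} \ N1) :=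
    hK.diff hN1
  have hev : ∀ᶠ v : ℝ in 𝓝 (0 : ℝ), ∀ y ∈ {y : P | t0 ≤ r y ∧ r y ≤ t1' ∧ R t0 y ∈ R t0 '' C2} \ N1,
      Fv r R v y ∉ C2 := by
    refine hK1.eventually_forall_of_forall_eventually fun y hy => ?_
    have h1 : ((fun p : ℝ × P => Fv r R p.1 p.2) (0, y)) ∈ C2ᶜ := by
      show Fv r R 0 y ∈ C2ᶜ
      rw [Fv_zero hF]
      exact fun h => hy.2 (h21 h)
    exact (Fv_cont hF).continuousAt.eventually_mem (hC2.isClosed.isOpen_compl.mem_nhds h1)
  obtain ⟨ε, hε, hεv⟩ := Metric.eventually_nhds_iff.1 hev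
  refine ⟨min (ε / 2) (t1' - t1), lt_min (by linarith) (by linarith), fun v hv hvs y hy => ?_⟩
  by_contra hyN
  have hv1 : v ≤ ε / 2 := hvs.trans (min_le_left _ _)
  have hv2 : v ≤ t1' - t1 := hvs.trans (min_le_right _ _)
  have hl0 := hle0 _ hy
  have hl1 := hle1 _ hy
  have hl := r_Fv hF hv y
  have h3 : t0 ≤ r y := by
    refine hl0.trans ?_
    rw [hl]
    have := hF.pos y
    exact max_le (by linarith) (by linarith)
  have h4 : r y ≤ t1' := by
    have : r y - v ≤ t1 := (le_max_left _ _).trans (hl ▸ hl1)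
    linarith
  have h5 : R t0 y ∈ R t0 '' C2 := ⟨_, hy, R_Fv hF ht0p hv y hl0⟩
  refine hεv ?_ y ⟨⟨h3, h4, h5⟩, hyN⟩ hy
  rw [Real.dist_eq, sub_zero, abs_of_nonneg hv]
  linarith

end flow

private theorem push_mem {X Y : Type} [TopologicalSpace X] [TopologicalSpace Y] (g : C(X, Y))
    (O : Set X) (S : Set Y) (n : ℕ) (hO : ∀ y ∈ O, g y ∈ S) (c : Ch X n) (hc : c ∈ cin O n) :
    push g n c ∈ cin S n := by
  have h1 : push g n c ∈ (Finsupp.supported ℤ ℤ {σ : Sx X n | range σ ⊆ O}).map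
      (Finsupp.lmapDomain ℤ ℤ fun σ : Sx X n => g.comp σ) := ⟨c, hc, rfl⟩
  rw [Finsupp.lmapDomain_supported] at h1
  refine Finsupp.supported_mono ?_ h1
  rintro _ ⟨σ, hσ, rfl⟩
  rintro _ ⟨x, rfl⟩
  exact hO _ (hσ ⟨x, rfl⟩)

private theorem push_id {X : Type} [TopologicalSpace X] (n : ℕ) (c : Ch X n) :
    push (ContinuousMap.id X) n c = c := by
  unfold push
  have h1 : (fun σ : Sx X n => (ContinuousMap.id X).comp σ) = id := by
    funext σ
    exact ContinuousMap.id_comp σ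
  rw [h1]
  exact Finsupp.mapDomain_id

/-- the chain argument -/
private theorem chain (hSM : StSM) (hSDA : StSDA) (hPRI : StPRI) (hMON : StMON) (hDEG : StDEG)
    {P : Type} [TopologicalSpace P] [T2Space P] (dg : P → Ch P 3 → ℤ) (hws : WS3 P dg)
    (g : C(P, P)) (H : (ContinuousMap.id P).Homotopy g) (K1 T T' O N2 : Set P) (a b : P)
    (hK1 : IsCompact K1) (hO : IsOpen O) (hT : IsOpen T) (hT' : IsOpen T')
    (hTT : T ∩ T' ⊆ O) (hcov : (T ∪ O) ∪ (T' ∪ O) = univ) (hKO : K1ᶜ ⊆ O)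
    (ha : a ∉ T' ∪ O) (hb : b ∉ T ∪ O) (hO2 : ∀ y ∈ O, g y ∉ N2)
    (haH : ∀ y ∈ O, ∀ t, H (t, y) ≠ a) (hbH : ∀ y ∈ O, ∀ t, H (t, y) ≠ b)
    (haK : a ∈ K1) (hab : JoinedIn N2 a b) : False := by
  obtain ⟨hbb, -⟩ := hSDA P
  obtain ⟨m1, m2, m3, m4, m5, -⟩ := hMON P
  obtain ⟨d1, d2, d3, -⟩ := hDEG P dg hws
  obtain ⟨c, hc, hc1⟩ := hws.cls K1 hK1
  have hcbd : bd 2 c ∈ cin K1ᶜ 2 := hc
  have hbdO : bd 2 c ∈ cin O 2 := m1 _ _ _ hKO hcbd
  obtain ⟨c1, hc1m, c2, hc2m, e, -, hce⟩ := hSM P (T ∪ O) (T' ∪ O) (hT.union hO) (hT'.union hO) 3 c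
    (by rw [hcov, m3]; trivial)
    (by
      show bd 2 c ∈ cin (T ∪ O) 2 ⊔ cin (T' ∪ O) 2
      exact Submodule.mem_sup_left (m1 _ _ _ subset_union_right hbdO))
  have hbdc1 : bd 2 c1 = bd 2 c - bd 2 c2 := by
    rw [hce, map_add, map_add, hbb 2 e]
    abel
  have hbdc1O : bd 2 c1 ∈ cin O 2 := by
    have h1 : bd 2 c1 ∈ cin (T ∪ O) 2 ⊓ cin (T' ∪ O) 2 := by
      refine ⟨m4 _ _ _ hc1m, ?_⟩
      rw [hbdc1]
      exact Submodule.sub_mem _ (m1 _ _ _ subset_union_right hbdO) (m4 _ _ _ hc2m)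
    rw [m2] at h1
    refine m1 _ _ _ ?_ h1
    rintro y ⟨hy1, hy2⟩
    rcases hy1 with hy1 | hy1
    · rcases hy2 with hy2 | hy2
      · exact hTT ⟨hy1, hy2⟩
      · exact hy2
    · exact hy1
  obtain ⟨Q, -, q2, q3⟩ := hPRI P P (ContinuousMap.id P) g H
  have hQ1 : bd 2 (Q 2 (bd 2 c1)) = push g 2 (bd 2 c1) - bd 2 c1 := by
    have h1 := q2 1 (bd 2 c1)
    have h2 : bd 1 (bd 2 c1) = 0 := hbb 1 c1
    rw [h2, map_zero, add_zero, push_id] at h1
    exact h1
  have hQm := q3 O 2 (bd 2 c1) hbdc1O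
  -- the modified chain
  have hcyc : c1 + Q 2 (bd 2 c1) ∈ Cyc N2 3 := by
    show bd 2 (c1 + Q 2 (bd 2 c1)) ∈ cin N2ᶜ 2
    rw [map_add, hQ1, add_sub_cancel]
    exact push_mem g O N2ᶜ 2 hO2 _ hbdc1O
  have hdeg := d3 N2 _ hcyc a b hab
  have haO : O ⊆ {a}ᶜ := fun y hy h => ha (Or.inr (mem_singleton_iff.1 h ▸ hy))
  have hbO : O ⊆ {b}ᶜ := fun y hy h => hb (Or.inr (mem_singleton_iff.1 h ▸ hy))
  have hQa : Q 2 (bd 2 c1) ∈ cin {a}ᶜ 3 := by
    refine m1 _ _ _ ?_ hQm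
    rintro _ ⟨y, hy, t, rfl⟩
    exact haH y hy t
  have hQb : Q 2 (bd 2 c1) ∈ cin {b}ᶜ 3 := by
    refine m1 _ _ _ ?_ hQm
    rintro _ ⟨y, hy, t, rfl⟩
    exact hbH y hy t
  have hc1a : c1 ∈ Cyc {a} 3 := m1 _ _ _ haO hbdc1O
  have hc1b : c1 ∈ Cyc {b} 3 := m1 _ _ _ hbO hbdc1O
  have e1 : dg a (c1 + Q 2 (bd 2 c1)) = dg a c1 := by
    rw [hws.add a _ hc1a _ (d2 a _ hQa).1, (d2 a _ hQa).2.2, add_zero]
  have e2 : dg b (c1 + Q 2 (bd 2 c1)) = dg b c1 := by
    rw [hws.add b _ hc1b _ (d2 b _ hQb).1, (d2 b _ hQb).2.2, add_zero]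
  have e3 : dg b c1 = 0 := by
    refine (d2 b _ (m1 _ _ _ ?_ hc1m)).2.2
    exact fun y hy h => hb (mem_singleton_iff.1 h ▸ hy)
  have hc2a : c2 ∈ cin {a}ᶜ 3 := by
    refine m1 _ _ _ ?_ hc2m
    rintro y hy rfl
    exact ha hy
  have hbe : bd 3 e ∈ Cyc {a} 3 := by
    show bd 2 (bd 3 e) ∈ cin {a}ᶜ 2
    rw [hbb 2 e]
    exact Submodule.zero_mem _
  have hbn : bd 3 e ∈ Nul {a} 3 := Submodule.mem_sup_right ⟨e, rfl⟩
  have e4 : dg a c = dg a c1 := by
    rw [hce, hws.add a _ (Submodule.add_mem _ hc1a (d2 a _ hc2a).1) _ hbe,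
      hws.add a _ hc1a _ (d2 a _ hc2a).1, (d2 a _ hc2a).2.2, hws.nul a _ hbn, add_zero, add_zero]
  have e5 := hc1 a haK
  rw [e1, e2, e3] at hdeg
  rw [e4, hdeg] at e5
  exact absurd e5 (by decide)

theorem hLSP (hSM : StSM) (hSDA : StSDA) (hPRI : StPRI) (hMON : StMON) (_hCON : StCON)
    (hDEG : StDEG) (_hFLW : StFLW) : StLSP := by
  intro P _ r R dg hSB x N' hN' hxN'
  have := hSB.met
  have := hSB.lco
  have := hSB.lpc
  have hF : Flow P r R := hSB.box.toFlow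
  obtain ⟨N1, hN1o, hN1x, hN1c, hN1k⟩ := exists_open_between_and_isCompact_closure
    (isCompact_singleton (x := x)) hN' (singleton_subset_iff.2 hxN')
  obtain ⟨N2, hN2o, hN2x, hN2c, hN2k⟩ := exists_open_between_and_isCompact_closure
    (isCompact_singleton (x := x)) hN1o hN1x
  have hx2 : x ∈ N2 := hN2x rfl
  obtain ⟨s₀, hs₀, hA⟩ := stepA hSB.box (closure N2) N1 hN2k ⟨x, subset_closure hx2⟩ hN1o hN2c
  obtain ⟨t, ht⟩ : ∃ t, t = r x := ⟨_, rfl⟩
  have ht0 : 0 < t := ht ▸ hF.pos x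
  obtain ⟨s, hs0, hs1, hs2⟩ : ∃ s : ℝ, 0 < s ∧ s ≤ s₀ ∧ s ≤ t / 4 :=
    ⟨min s₀ (t / 4), lt_min hs₀ (by linarith), min_le_left _ _, min_le_right _ _⟩
  have hopen : IsOpen (N2 ∩ {y : P | t - s / 4 < r y}) :=
    hN2o.inter (isOpen_lt continuous_const hF.rc)
  have hxm : x ∈ N2 ∩ {y : P | t - s / 4 < r y} := ⟨hx2, by
    show t - s / 4 < r x
    rw [← ht]
    linarith⟩
  refine ⟨pathComponentIn (N2 ∩ {y : P | t - s / 4 < r y}) x, hopen.pathComponentIn x,
    mem_pathComponentIn_self hxm, ?_, ?_⟩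
  · intro y hy
    exact hN1c (subset_closure (hN2c (subset_closure (pathComponentIn_subset hy).1)))
  · intro a haN b hbN hra hrb
    rw [← ht] at hra hrb
    by_contra hnj
    have hpc := isPathConnected_pathComponentIn hxm
    have hab := hpc.joinedIn a haN b hbN
    have ha2 := pathComponentIn_subset haN
    have hb2 := pathComponentIn_subset hbN
    obtain ⟨δ, hδ0, hδ1, hδ2, hδ3⟩ : ∃ δ : ℝ, 0 < δ ∧ δ ≤ s / 4 ∧ t + δ ≤ r a ∧ t + δ ≤ r b := by
      refine ⟨min (s / 4) (min (r a - t) (r b - t)), lt_min (by linarith) (lt_min (by linarith)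
        (by linarith)), min_le_left _ _, ?_, ?_⟩
      · have := (min_le_right (s / 4) (min (r a - t) (r b - t))).trans (min_le_left _ _)
        linarith
      · have := (min_le_right (s / 4) (min (r a - t) (r b - t))).trans (min_le_right _ _)
        linarith
    have hGo : IsOpen (N' ∩ {y : P | t < r y}) := hN'.inter (isOpen_lt continuous_const hF.rc)
    have haG : a ∈ N' ∩ {y : P | t < r y} :=
      ⟨hN1c (subset_closure (hN2c (subset_closure ha2.1))), hra⟩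
    have hbG : b ∈ N' ∩ {y : P | t < r y} :=
      ⟨hN1c (subset_closure (hN2c (subset_closure hb2.1))), hrb⟩
    obtain ⟨T, hT⟩ : ∃ T, T = pathComponentIn (N' ∩ {y : P | t < r y}) a := ⟨_, rfl⟩
    have hTo : IsOpen T := hT ▸ hGo.pathComponentIn a
    have hbT : b ∉ T := by
      rw [hT]
      intro h
      apply hnj
      rw [← ht]
      exact h
    have haT : a ∈ T := hT ▸ mem_pathComponentIn_self haG
    have hT'o : IsOpen ((N' ∩ {y : P | t < r y}) \ T) := by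
      rw [isOpen_iff_mem_nhds]
      rintro y ⟨hyG, hyT⟩
      refine Filter.mem_of_superset ((hGo.pathComponentIn y).mem_nhds
        (mem_pathComponentIn_self hyG)) ?_
      intro z hz
      refine ⟨pathComponentIn_subset hz, fun hzT => hyT ?_⟩
      rw [hT] at hzT ⊢
      exact JoinedIn.trans hzT (JoinedIn.symm hz)
    -- the homotopy
    have hcont : Continuous (Fv r R s) := by
      have h1 : Continuous fun y : P => ((s, y) : ℝ × P) := by fun_prop
      exact (Fv_cont hF).comp h1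
    have hHc : Continuous fun p : unitInterval × P => Fv r R ((p.1 : ℝ) * s) p.2 := by
      have h1 : Continuous fun p : unitInterval × P => (((p.1 : ℝ) * s, p.2) : ℝ × P) := by
        fun_prop
      exact (Fv_cont hF).comp h1
    let g : C(P, P) := ⟨Fv r R s, hcont⟩
    let H : (ContinuousMap.id P).Homotopy g :=
      { toFun := fun p => Fv r R ((p.1 : ℝ) * s) p.2
        continuous_toFun := hHc
        map_zero_left := fun y => by
          show Fv r R ((0 : ℝ) * s) y = y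
          rw [zero_mul, Fv_zero hF]
        map_one_left := fun y => by
          show Fv r R ((1 : ℝ) * s) y = Fv r R s y
          rw [one_mul] }
    have hHv : ∀ (u : unitInterval) (y : P), H (u, y) = Fv r R ((u : ℝ) * s) y := fun u y => rfl
    have hu : ∀ u : unitInterval, 0 ≤ (u : ℝ) * s ∧ (u : ℝ) * s ≤ s := fun u =>
      ⟨mul_nonneg u.2.1 hs0.le, by nlinarith [u.2.2]⟩
    have hlow : ∀ (v : ℝ), 0 ≤ v → ∀ y : P, r (Fv r R v y) ≤ r y := by
      intro v hv y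
      rw [r_Fv hF hv]
      have := hF.pos y
      exact max_le (by linarith) (by linarith)
    have hHa : ∀ p : P, p ∈ N2 → t + δ ≤ r p → ∀ y ∈ {y : P | r y < t + δ} ∪ (closure N1)ᶜ,
        ∀ u : unitInterval, H (u, y) ≠ p := by
      intro p hp hrp y hy u h
      rw [hHv] at h
      rcases hy with hy | hy
      · have h1 := hlow _ (hu u).1 y
        rw [h] at h1
        have h2 : r y < t + δ := hy
        linarith
      · exact hy (subset_closure (hA _ (hu u).1 ((hu u).2.trans hs1) y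
          (h ▸ subset_closure hp)))
    refine chain hSM hSDA hPRI hMON hDEG dg hSB.ws g H (closure N1) T
      ((N' ∩ {y : P | t < r y}) \ T) ({y : P | r y < t + δ} ∪ (closure N1)ᶜ)
      (pathComponentIn (N2 ∩ {y : P | t - s / 4 < r y}) x) a b hN1k
      ((isOpen_lt hF.rc continuous_const).union isClosed_closure.isOpen_compl) hTo hT'o
      (fun y hy => absurd hy.1 hy.2.2) ?_ subset_union_right ?_ ?_ ?_ (hHa a ha2.1 hδ2)
      (hHa b hb2.1 hδ3) (subset_closure (hN2c (subset_closure ha2.1))) hab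
    · rw [eq_univ_iff_forall]
      intro y
      by_cases h1 : r y < t + δ
      · exact Or.inl (Or.inr (Or.inl h1))
      by_cases h2 : y ∈ closure N1
      · have hyG : y ∈ N' ∩ {y : P | t < r y} := ⟨hN1c h2, by
          show t < r y
          rw [not_lt] at h1
          linarith⟩
        by_cases h3 : y ∈ T
        · exact Or.inl (Or.inl h3)
        · exact Or.inr (Or.inl ⟨hyG, h3⟩)
      · exact Or.inl (Or.inr (Or.inr h2))
    · rintro (h | h | h)
      · exact h.2 haT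
      · have : r a < t + δ := h
        linarith
      · exact h (subset_closure (hN2c (subset_closure ha2.1)))
    · rintro (h | h | h)
      · exact hbT h
      · have : r b < t + δ := h
        linarith
      · exact h (subset_closure (hN2c (subset_closure hb2.1)))
    · intro y hy h
      have h' : Fv r R s y ∈ N2 ∩ {y : P | t - s / 4 < r y} := pathComponentIn_subset h
      rcases hy with hy | hy
      · have h1 : t - s / 4 < r (Fv r R s y) := h'.2
        rw [r_Fv hF hs0.le] at h1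
        have h2 : r y < t + δ := hy
        have h3 : max (r y - s) (r y / 2) ≤ t - s / 4 := max_le (by linarith) (by linarith)
        linarith
      · exact hy (subset_closure (hA _ hs0.le hs1 y (subset_closure h'.1)))

end Pool.Agent.Helper36.SF
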