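import Pool.Agent.Helper58.SF.StS

/-! Project SF (MP_a45945_gt), module SEB: selections over an interval -/

set_option autoImplicit false

namespace Pool.Agent.Helper36.SF

open Set Topology Pool.Agent.Helper58.SF

section facts

variable {Y : Type} [MetricSpace Y] {E : ℝ → Set Y} {Sm : Set Y → Prop} {F : ℝ → Set Y}
  {p q : ℝ × Y}

private theorem tb_lt (h : Tb E Sm F p q) : p.1 < q.1 := by
  induction h with
  | one p q B hl _ _ => exact hl.1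
  | cat p q s _ _ h1 h2 => exact h1.trans h2

private theorem lk_mem {B : Set Y} (h : Lk E B p q) :
    (∀ u ∈ Icc p.1 q.1, (B ∩ E u).Nonempty) ∧ p.2 ∈ B ∧ q.2 ∈ B := by
  obtain ⟨h1, h2, h3, -, G, -, h5, h6, h7, h8⟩ := h
  refine ⟨fun u hu => ?_, ?_, ?_⟩
  · obtain ⟨θ, hθ, hG⟩ := h7 u hu
    have h9 := (h8 u hu θ hθ θ hθ hG hG).source_mem
    exact ⟨θ, h9.2, hθ⟩
  · exact (h8 p.1 ⟨le_rfl, h1.le⟩ p.2 h2 p.2 h2 h5 h5).source_mem.2
  · exact (h8 q.1 ⟨h1.le, le_rfl⟩ q.2 h3 q.2 h3 h6 h6).source_mem.2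

private theorem tb_mono {Sm' : Set Y → Prop} (hS : ∀ B, Sm B → Sm' B) (h : Tb E Sm F p q) :
    Tb E Sm' F p q := by
  induction h with
  | one p q B hl hs hF => exact Tb.one p q B hl (hS B hs) hF
  | cat p q s _ _ h1 h2 => exact Tb.cat p q s h1 h2

private theorem tb_congr {F' : ℝ → Set Y} (h : Tb E Sm F p q)
    (hF : ∀ u ∈ Ico p.1 q.1, F' u = F u) : Tb E Sm F' p q := by
  induction h with
  | one p q B hl hs hB => exact Tb.one p q B hl hs fun u hu => (hF u hu).trans (hB u hu)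
  | cat p q s t1 t2 h1 h2 =>
    have l1 := tb_lt t1
    have l2 := tb_lt t2
    exact Tb.cat p q s (h1 fun u hu => hF u ⟨hu.1, hu.2.trans l2⟩)
      (h2 fun u hu => hF u ⟨l1.le.trans hu.1, hu.2⟩)

private theorem tb_sm (h : Tb E Sm F p q) : ∀ u ∈ Ico p.1 q.1, Sm (F u) := by
  induction h with
  | one p q B hl hs hB =>
    intro u hu
    rw [hB u hu]
    exact hs
  | cat p q s t1 t2 h1 h2 =>
    intro u hu
    rcases lt_or_ge u q.1 with h | h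
    · exact h1 u ⟨hu.1, h⟩
    · exact h2 u ⟨h, hu.2⟩

private theorem tb_ne (h : Tb E Sm F p q) : ∀ u ∈ Ico p.1 q.1, (F u ∩ E u).Nonempty := by
  induction h with
  | one p q B hl hs hB =>
    intro u hu
    rw [hB u hu]
    exact (lk_mem hl).1 u ⟨hu.1, hu.2.le⟩
  | cat p q s t1 t2 h1 h2 =>
    intro u hu
    rcases lt_or_ge u q.1 with h | h
    · exact h1 u ⟨hu.1, h⟩
    · exact h2 u ⟨h, hu.2⟩

private theorem tb_fst (h : Tb E Sm F p q) : p.2 ∈ F p.1 := by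
  induction h with
  | one p q B hl hs hB =>
    rw [hB p.1 ⟨le_rfl, hl.1⟩]
    exact (lk_mem hl).2.1
  | cat p q s t1 t2 h1 h2 => exact h1

private theorem tb_snd (h : Tb E Sm F p q) :
    ∃ δ : ℝ, 0 < δ ∧ ∀ u ∈ Ico p.1 q.1, q.1 - δ < u → q.2 ∈ F u := by
  induction h with
  | one p q B hl hs hB =>
    refine ⟨1, one_pos, fun u hu _ => ?_⟩
    rw [hB u hu]
    exact (lk_mem hl).2.2
  | cat p q s t1 t2 h1 h2 =>
    obtain ⟨δ, hδ, h3⟩ := h2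
    have l2 := tb_lt t2
    refine ⟨min δ (s.1 - q.1), lt_min hδ (sub_pos.2 l2), fun u hu hu' => ?_⟩
    have e1 := min_le_left δ (s.1 - q.1)
    have e2 := min_le_right δ (s.1 - q.1)
    exact h3 u ⟨by linarith, hu.2⟩ (by linarith)

private theorem tb_loc (h : Tb E Sm F p q) : ∀ u₀ ∈ Ico p.1 q.1, ∃ δ : ℝ, 0 < δ ∧
    ∀ u ∈ Ico p.1 q.1, |u - u₀| < δ → (F u ∩ F u₀).Nonempty := by
  induction h with
  | one p q B hl hs hB =>
    intro u₀ hu₀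
    refine ⟨1, one_pos, fun u hu _ => ?_⟩
    rw [hB u hu, hB u₀ hu₀, inter_self]
    exact ⟨_, (lk_mem hl).2.1⟩
  | cat p q s t1 t2 h1 h2 =>
    intro u₀ hu₀
    rcases lt_trichotomy u₀ q.1 with h | h | h
    · obtain ⟨δ, hδ, h3⟩ := h1 u₀ ⟨hu₀.1, h⟩
      refine ⟨min δ (q.1 - u₀), lt_min hδ (sub_pos.2 h), fun u hu hu' => ?_⟩
      have e1 := min_le_left δ (q.1 - u₀)
      have e2 := min_le_right δ (q.1 - u₀)
      have e3 := (abs_lt.1 hu').2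
      exact h3 u ⟨hu.1, by linarith⟩ (by linarith)
    · obtain ⟨δ₁, hδ₁, h3⟩ := tb_snd t1
      obtain ⟨δ₂, hδ₂, h4⟩ := h2 u₀ ⟨h ▸ le_rfl, hu₀.2⟩
      refine ⟨min δ₁ δ₂, lt_min hδ₁ hδ₂, fun u hu hu' => ?_⟩
      have e1 := min_le_left δ₁ δ₂
      have e2 := min_le_right δ₁ δ₂
      rcases lt_or_ge u q.1 with h5 | h5
      · have e3 := (abs_lt.1 hu').1
        refine ⟨q.2, h3 u ⟨hu.1, h5⟩ (by linarith), ?_⟩
        rw [h]
        exact tb_fst t2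
      · exact h4 u ⟨h5, hu.2⟩ (by linarith)
    · obtain ⟨δ, hδ, h3⟩ := h2 u₀ ⟨h.le, hu₀.2⟩
      refine ⟨min δ (u₀ - q.1), lt_min hδ (sub_pos.2 h), fun u hu hu' => ?_⟩
      have e1 := min_le_left δ (u₀ - q.1)
      have e2 := min_le_right δ (u₀ - q.1)
      have e3 := (abs_lt.1 hu').1
      exact h3 u ⟨by linarith, hu.2⟩ (by linarith)

/-- refinement of the tubes -/
private theorem tb_ref (hSEA : StSEA) (hL : Lsc E) {Sm' : Set Y → Prop}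
    (hS' : ∀ u ∈ Icc (0 : ℝ) 1, ∀ θ ∈ E u, ∃ ρ₀ : ℝ, 0 < ρ₀ ∧ ∀ ρ : ℝ, 0 < ρ → ρ ≤ ρ₀ →
      Sm' (Metric.ball θ ρ)) (h : Tb E Sm F p q) : 0 ≤ p.1 → q.1 ≤ 1 →
    ∃ F' : ℝ → Set Y, Tb E Sm' F' p q ∧ ∀ u ∈ Ico p.1 q.1, closure (F' u) ⊆ F u := by
  induction h with
  | one p q B hl hs hB =>
    intro hp hq
    obtain ⟨F', hF'⟩ := hSEA Y E hL (fun B' => Sm' B' ∧ closure B' ⊆ B) B p q hp hq hl (by
      rintro u hu θ ⟨hθE, hθB⟩
      obtain ⟨ρ₀, hρ₀, h1⟩ := hS' u ⟨hp.trans hu.1, hu.2.trans hq⟩ θ hθE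
      obtain ⟨ε, hε, h2⟩ := Metric.isOpen_iff.1 hl.2.2.2.1 θ hθB
      refine ⟨min ρ₀ (ε / 2), lt_min hρ₀ (half_pos hε), fun ρ hρ hρ' => ?_⟩
      refine ⟨h1 ρ hρ (hρ'.trans (min_le_left _ _)), ?_⟩
      refine Metric.closure_ball_subset_closedBall.trans (subset_trans ?_ h2)
      exact Metric.closedBall_subset_ball (lt_of_le_of_lt (hρ'.trans (min_le_right _ _))
        (half_lt_self hε)))
    refine ⟨F', tb_mono (fun B h => h.1) hF', fun u hu => ?_⟩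
    rw [hB u hu]
    exact (tb_sm hF' u hu).2
  | cat p q s t1 t2 h1 h2 =>
    intro hp hs
    have l1 := tb_lt t1
    have l2 := tb_lt t2
    obtain ⟨F₁, hF₁, hc₁⟩ := h1 hp (l2.le.trans hs)
    obtain ⟨F₂, hF₂, hc₂⟩ := h2 (hp.trans l1.le) hs
    refine ⟨fun u => if u < q.1 then F₁ u else F₂ u, Tb.cat p q s
      (tb_congr hF₁ fun u hu => if_pos hu.2)
      (tb_congr hF₂ fun u hu => if_neg (not_lt.2 hu.1)), fun u hu => ?_⟩
    show closure (if u < q.1 then F₁ u else F₂ u) ⊆ _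
    rcases lt_or_ge u q.1 with h | h
    · rw [if_pos h]
      exact hc₁ u ⟨hu.1, h⟩
    · rw [if_neg (not_lt.2 h)]
      exact hc₂ u ⟨h, hu.2⟩

end facts

theorem hSEB (hSEA : StSEA) : StSEB := by
  intro Y _ _ E O hL hpc hO hEO hcl
  obtain ⟨θ₀, hθ₀⟩ := (hpc 0 ⟨le_rfl, zero_le_one⟩).nonempty
  obtain ⟨θ₁, hθ₁⟩ := (hpc 1 ⟨zero_le_one, le_rfl⟩).nonempty
  have hLk : Lk E univ ((0 : ℝ), θ₀) ((1 : ℝ), θ₁) := by
    refine ⟨zero_lt_one, hθ₀, hθ₁, isOpen_univ, univ, isOpen_univ, trivial, trivial, ?_, ?_⟩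
    · intro u hu
      obtain ⟨θ, hθ⟩ := (hpc u hu).nonempty
      exact ⟨θ, hθ, trivial⟩
    · intro u hu a ha b hb _ _
      rw [inter_univ]
      exact (hpc u hu).joinedIn a ha b hb
  let Sm : ℕ → Set Y → Prop := fun n B =>
    closure B ⊆ O n ∧ ∀ x ∈ B, ∀ y ∈ B, dist x y ≤ 2 * (1 / 2) ^ n
  have hSm : ∀ n, ∀ u ∈ Icc (0 : ℝ) 1, ∀ θ ∈ E u, ∃ ρ₀ : ℝ, 0 < ρ₀ ∧ ∀ ρ : ℝ, 0 < ρ → ρ ≤ ρ₀ →
      Sm n (Metric.ball θ ρ) := by
    intro n u hu θ hθ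
    obtain ⟨ε, hε, h2⟩ := Metric.isOpen_iff.1 (hO n) θ (hEO n u hu hθ)
    refine ⟨min (ε / 2) ((1 / 2) ^ n), lt_min (half_pos hε) (by positivity), fun ρ hρ hρ' => ?_⟩
    refine ⟨?_, fun x hx y hy => ?_⟩
    · refine Metric.closure_ball_subset_closedBall.trans (subset_trans ?_ h2)
      exact Metric.closedBall_subset_ball (lt_of_le_of_lt (hρ'.trans (min_le_left _ _))
        (half_lt_self hε))
    · have h3 := hρ'.trans (min_le_right _ _)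
      have h4 := Metric.mem_ball.1 hx
      have h5 := Metric.mem_ball.1 hy
      have h6 := dist_triangle_right x y θ
      linarith
  obtain ⟨F0, hF0⟩ := hSEA Y E hL (Sm 0) univ ((0 : ℝ), θ₀) ((1 : ℝ), θ₁) le_rfl le_rfl hLk
    (fun u hu θ hθ => hSm 0 u hu θ hθ.1)
  have hstep : ∀ (n : ℕ) (F : {F : ℝ → Set Y // Tb E (Sm n) F ((0 : ℝ), θ₀) ((1 : ℝ), θ₁)}),
      ∃ F' : {F' : ℝ → Set Y // Tb E (Sm (n + 1)) F' ((0 : ℝ), θ₀) ((1 : ℝ), θ₁)},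
        ∀ u ∈ Ico (0 : ℝ) 1, closure (F'.1 u) ⊆ F.1 u := by
    intro n F
    obtain ⟨F', h1, h2⟩ := tb_ref hSEA hL (hSm (n + 1)) F.2 le_rfl le_rfl
    exact ⟨⟨F', h1⟩, h2⟩
  choose nxt hnxt using hstep
  let Fs : ∀ n : ℕ, {F : ℝ → Set Y // Tb E (Sm n) F ((0 : ℝ), θ₀) ((1 : ℝ), θ₁)} := fun n =>
    Nat.rec ⟨F0, hF0⟩ (fun n Fn => nxt n Fn) n
  have hFs : ∀ n, ∀ u ∈ Ico (0 : ℝ) 1, closure ((Fs (n + 1)).1 u) ⊆ (Fs n).1 u :=
    fun n => hnxt n (Fs n)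
  have hanti : ∀ n m, n ≤ m → ∀ u ∈ Ico (0 : ℝ) 1, (Fs m).1 u ⊆ (Fs n).1 u := by
    intro n m hnm u hu
    induction m, hnm using Nat.le_induction with
    | base => exact subset_rfl
    | succ m _ ih => exact (subset_closure.trans (hFs m u hu)).trans ih
  have hsm : ∀ n, ∀ u ∈ Ico (0 : ℝ) 1, Sm n ((Fs n).1 u) := fun n => tb_sm (Fs n).2
  have hne : ∀ u ∈ Ico (0 : ℝ) 1, ∀ n, ((Fs n).1 u ∩ E u).Nonempty := fun u hu n =>
    tb_ne (Fs n).2 u hu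
  have hlim : ∀ u : ℝ, ∃ y : Y, u ∈ Ico (0 : ℝ) 1 → (∀ n, y ∈ (Fs n).1 u) ∧ y ∈ E u := by
    intro u
    by_cases hu : u ∈ Ico (0 : ℝ) 1
    · choose θ hθ using hne u hu
      have hc : CauchySeq θ := by
        refine cauchySeq_of_le_geometric (1 / 2) 2 (by norm_num) fun n => ?_
        exact (hsm n u hu).2 _ (hθ n).1 _ (hanti n (n + 1) (Nat.le_succ n) u hu (hθ (n + 1)).1)
      obtain ⟨y, hy⟩ := cauchySeq_tendsto_of_complete hc
      have hyF : ∀ n, y ∈ closure ((Fs n).1 u) := by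
        intro n
        refine mem_closure_of_tendsto hy ?_
        filter_upwards [Filter.eventually_ge_atTop n] with m hm
        exact hanti n m hm u hu (hθ m).1
      have hyE : y ∈ closure (E u) :=
        mem_closure_of_tendsto hy (Filter.Eventually.of_forall fun m => (hθ m).2)
      refine ⟨y, fun _ => ⟨fun n => hFs n u hu (hyF (n + 1)), ?_⟩⟩
      exact hcl u ⟨hu.1, hu.2.le⟩ y hyE fun n => (hsm n u hu).1 (hyF n)
    · exact ⟨θ₀, fun h => absurd h hu⟩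
  choose s hs using hlim
  refine ⟨s, ?_, fun u hu => (hs u hu).2⟩
  rw [Metric.continuousOn_iff]
  intro u₀ hu₀ ε hε
  obtain ⟨n, hn⟩ : ∃ n : ℕ, (1 / 2 : ℝ) ^ n < ε / 4 :=
    exists_pow_lt_of_lt_one (by linarith) (by norm_num)
  obtain ⟨δ, hδ, h5⟩ := tb_loc (Fs n).2 u₀ hu₀
  refine ⟨δ, hδ, fun u hu hd => ?_⟩
  obtain ⟨y, hy1, hy2⟩ := h5 u hu (by rwa [← Real.dist_eq])
  have e1 := (hsm n u hu).2 _ ((hs u hu).1 n) y hy1
  have e2 := (hsm n u₀ hu₀).2 y hy2 _ ((hs u₀ hu₀).1 n)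
  have e3 := dist_triangle (s u) y (s u₀)
  linarith

end Pool.Agent.Helper36.SF
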